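import Pool.Agent.Lib_helper80.CW.Final

/-!
# `(2P₁ + P₂, co-(P₁ + P₅))`-free graphs have bounded clique-width

Clique-width expressions (`Expr`, `CliqueWidthLE`) are defined in
`Pool/Agent/Lib_helper80/CW/Expr.lean`.
-/

namespace Pool.Agent.Results.MP_7b6841_lc.BoundedCliqueWidth

open Pool.Agent.Lib80.CW

universe u

/-- the graph `2P₁ + P₂`: two isolated vertices and an edge -/
def twoP1P2 : SimpleGraph (Fin 4) :=
  SimpleGraph.fromEdgeSet {s(0, 1)}

/-- the graph `P₁ + P₅`: an isolated vertex and a path on five vertices -/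
def P1P5 : SimpleGraph (Fin 6) :=
  SimpleGraph.fromEdgeSet {s(0, 1), s(1, 2), s(2, 3), s(3, 4)}

/-- `G` has no induced subgraph isomorphic to `H` -/
def Free {m : ℕ} {V : Type u} (H : SimpleGraph (Fin m)) (G : SimpleGraph V) : Prop :=
  IsEmpty (H ↪g G)

theorem diamondFree_compl {V : Type u} {G : SimpleGraph V} (h : Free twoP1P2 G) :
    DiamondFree Gᶜ := by
  intro u v a b h1 h2 h3 h4 h5 hab
  by_contra hn
  simp only [SimpleGraph.compl_adj] at h1 h2 h3 h4 h5 hn
  have hab' : G.Adj a b := by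
    by_contra h'
    exact hn ⟨hab, h'⟩
  let f : Fin 4 → V := ![a, b, u, v]
  have hf : ∀ i j, (G.Adj (f i) (f j) ↔ twoP1P2.Adj i j) ∧ (f i = f j → i = j) := by
    have m1 : ¬ G.Adj v u := fun h => h1.2 h.symm
    have m2 : ¬ G.Adj a u := fun h => h2.2 h.symm
    have m3 : ¬ G.Adj a v := fun h => h3.2 h.symm
    have m4 : ¬ G.Adj b u := fun h => h4.2 h.symm
    have m5 : ¬ G.Adj b v := fun h => h5.2 h.symm
    intro i j
    fin_cases i <;> fin_cases j <;>
      simp [f, twoP1P2, hab', hab'.symm, h1.2, h2.2, h3.2, h4.2, h5.2, m1, m2, m3, m4, m5, hab,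
        hab.symm, h1.1, h2.1, h3.1, h4.1, h5.1, h1.1.symm, h2.1.symm, h3.1.symm, h4.1.symm,
        h5.1.symm]
  exact h.elim ⟨⟨f, fun i j hij => (hf i j).2 hij⟩, fun {i j} => (hf i j).1⟩

theorem p15Free_compl {V : Type u} {G : SimpleGraph V} (h : Free P1P5ᶜ G) : P15Free Gᶜ := by
  intro z a b c d e h1 h2 h3 h4 n1 n2 n3 n4 n5 n6 z1 z2 z3 z4 z5
  -- the six vertices are distinct
  have hac : a ≠ c := by rintro rfl; exact n2 h3
  have had : a ≠ d := by rintro rfl; exact n1 h3.symm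
  have hae : a ≠ e := by rintro rfl; exact n2 h4.symm
  have hbd : b ≠ d := by rintro rfl; exact n2 h1
  have hbe : b ≠ e := by rintro rfl; exact n4 h4.symm
  have hce : c ≠ e := by rintro rfl; exact n5 h2
  have hza : z ≠ a := by rintro rfl; exact z2 h1
  have hzb : z ≠ b := by rintro rfl; exact z1 h1.symm
  have hzc : z ≠ c := by rintro rfl; exact z2 h2.symm
  have hzd : z ≠ d := by rintro rfl; exact z3 h3.symm
  have hze : z ≠ e := by rintro rfl; exact z4 h4.symm
  have hcom : ∀ x y : V, x ≠ y → ¬ Gᶜ.Adj x y → G.Adj x y := by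
    intro x y hxy hn
    by_contra h'
    exact hn (by rw [SimpleGraph.compl_adj]; exact ⟨hxy, h'⟩)
  have h1' := (SimpleGraph.compl_adj G a b).1 h1
  have h2' := (SimpleGraph.compl_adj G b c).1 h2
  have h3' := (SimpleGraph.compl_adj G c d).1 h3
  have h4' := (SimpleGraph.compl_adj G d e).1 h4
  have m1 := hcom _ _ hac n1
  have m2 := hcom _ _ had n2
  have m3 := hcom _ _ hae n3
  have m4 := hcom _ _ hbd n4
  have m5 := hcom _ _ hbe n5
  have m6 := hcom _ _ hce n6
  have y1 := hcom _ _ hza z1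
  have y2 := hcom _ _ hzb z2
  have y3 := hcom _ _ hzc z3
  have y4 := hcom _ _ hzd z4
  have y5 := hcom _ _ hze z5
  have k1 : ¬ G.Adj b a := fun h => h1'.2 h.symm
  have k2 : ¬ G.Adj c b := fun h => h2'.2 h.symm
  have k3 : ¬ G.Adj d c := fun h => h3'.2 h.symm
  have k4 : ¬ G.Adj e d := fun h => h4'.2 h.symm
  let f : Fin 6 → V := ![a, b, c, d, e, z]
  have hf : ∀ i j, (G.Adj (f i) (f j) ↔ P1P5ᶜ.Adj i j) ∧ (f i = f j → i = j) := by
    intro i j
    fin_cases i <;> fin_cases j <;>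
      simp [f, P1P5, SimpleGraph.compl_adj, m1, m2, m3, m4, m5, m6, y1, y2, y3, y4, y5, m1.symm,
        m2.symm, m3.symm, m4.symm, m5.symm, m6.symm, y1.symm, y2.symm, y3.symm, y4.symm, y5.symm,
        h1'.1, h2'.1, h3'.1, h4'.1, h1'.2, h2'.2, h3'.2, h4'.2, k1, k2, k3, k4, h1'.1.symm,
        h2'.1.symm, h3'.1.symm, h4'.1.symm, hac, had, hae, hbd, hbe, hce, hza, hzb, hzc, hzd, hze,
        hac.symm, had.symm, hae.symm, hbd.symm, hbe.symm, hce.symm, hza.symm, hzb.symm, hzc.symm,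
        hzd.symm, hze.symm]
  exact h.elim ⟨⟨f, fun i j hij => (hf i j).2 hij⟩, fun {i j} => (hf i j).1⟩

/-- There is a constant `c` such that every finite graph without induced `2P₁ + P₂` and without
induced complement of `P₁ + P₅` has clique-width at most `c`. -/
theorem result : ∃ c : ℕ, ∀ (V : Type u) [Finite V] [Nonempty V] (G : SimpleGraph V),
    Free twoP1P2 G → Free P1P5ᶜ G → CliqueWidthLE G c := by
  classical
  obtain ⟨C, hC⟩ := class_bound.{u}
  refine ⟨3 * (C + 1), fun V _ _ G h1 h2 => ?_⟩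
  have := Fintype.ofFinite V
  have h := (hC V Gᶜ (diamondFree_compl h1) (p15Free_compl h2)).compl
  rw [compl_compl] at h
  exact cliqueWidthLE_of_MW (Nat.succ_pos C) (h.mono (Nat.le_succ C))

end Pool.Agent.Results.MP_7b6841_lc.BoundedCliqueWidth
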